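import Pool.Agent.X310.ParG

/-!
# `MP_ddf76b_nt`: the `p`-parity conjecture and 2-hyperelementary mod `p` images

Let `L/K` be a finite Galois extension of number fields containing `K(E[p])`, with group `G`, and
`δ(H) ∈ ZMod 2` the defect of `p`-parity of `E` over the fixed field of `H`.  It respects relations
between permutation characters.  If `p` is odd, and the defect vanishes when `E` has a `p`-isogeny
over the fixed field of `H`, then `p`-parity over `K` and all intermediate fields follows from
`p`-parity over the fixed fields of the 2-hyperelementary `H` whose mod `p` image has order prime to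
`p`, fixes no line and has an abelian subgroup of index at most 2.
-/

set_option autoImplicit false

namespace Pool.Agent.Results.MP_ddf76b_nt.PrimeToPImages

open Pool.Agent.X310.Par

theorem result :
    (∀ (G : Type) [Group G] [Finite G] (δ : Subgroup G → ZMod 2), RespectsRelations δ →
      (∀ H, IsTwoHyperelementary H → δ H = 0) → ∀ H, δ H = 0) ∧
    (∀ (p : ℕ) [Fact p.Prime], p ≠ 2 → ∀ (G : Type) [Group G] [Finite G]
      (ρ : G →* GL (Fin 2) (ZMod p)) (δ : Subgroup G → ZMod 2), RespectsRelations δ →
      (∀ H, FixesLine ρ H → δ H = 0) →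
      (∀ H, IsTwoHyperelementary H → ¬ p ∣ Nat.card (H.map ρ) → ¬ FixesLine ρ H →
        AlmostAbelian ρ H → δ H = 0) → ∀ H, δ H = 0) ∧
    (∀ (G : Type) [Group G] [Finite G]
      (ρ : G →* GL (Fin 2) (ZMod 3)) (δ : Subgroup G → ZMod 2), RespectsRelations δ →
      (∀ H, FixesLine ρ H → δ H = 0) →
      (∀ H, (∃ k : ℕ, Nat.card (H.map ρ) = 2 ^ k) → ¬ FixesLine ρ H → δ H = 0) →
        ∀ H, δ H = 0) :=
  ⟨fun _ _ _ _ hδ h => vanish_of_two hδ h,
    fun _ _ hp _ _ _ ρ _ hδ h1 h2 => descend hp ρ hδ h1 h2,
    fun _ _ _ ρ _ hδ h1 h2 => descend_three ρ hδ h1 h2⟩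

end Pool.Agent.Results.MP_ddf76b_nt.PrimeToPImages
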