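import Pool.Agent.X156.SD.Sel

/-!
# The `p`-parity conjecture over Galois extensions of even degree

Let `W` be a semistable elliptic curve over a number field `k`, `L/k` a finite Galois extension
with group `G`. For a semistable curve over a number field `F` the root number is `(-1)^(m + u)`,
`m` the number of primes of split multiplicative reduction, `u` the number of infinite places.

1. (No hypothesis.) If the subgroup `H` of `G` has a normal subgroup `N` of odd order and index
   `2^(n+1)`, then the root number of `W` over `L` is the product of the root numbers over the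
   fields `L^K`, `K` the subgroups of index two in `H`. This applies to a Sylow `2`-subgroup `H` for
   every `L/k` of even degree, and to `H = G` if `G` is nilpotent of even order.
2. Let `p` be a prime. The `p`-infinity Selmer rank is defined by the growth of the orders of the
   Selmer groups for the powers of `p`; let `pDefect` be the product of `(-1)^rank` and of the root
   number, so that the `p`-parity conjecture over `F` says `pDefect = 1` over `F`. The dual of the
   Selmer group gives a self-dual representation `V` of `G` over the `p`-adic numbers such that the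
   Selmer ranks over the fields `L^H` are the dimensions of the spaces `V^H` (T. and V. Dokchitser).
   Given this representation: `pDefect` over `L` is the product of the `pDefect` over the `L^K`, for
   `H`, `N` as in 1, and for all Sylow `2`-subgroups `H` if `L/k` has even degree; and `pDefect` is
   the same over `L` and `L^z` if `z` is an element of order two which is a product of squares.
-/

set_option autoImplicit false

namespace Pool.Agent.Results.MP_ddf76b_nt.SelmerParityFromQuadraticLayers

open WeierstrassCurve NumberField Module Pool.Agent.X156.PR Pool.Agent.X156.SD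

theorem result :
    ∀ (k L : Type) [Field k] [NumberField k] [Field L] [NumberField L] [Algebra k L] [IsGalois k L]
      (W : WeierstrassCurve k), W.Δ ≠ 0 → Semistable W →
    -- 1
    (∀ H N : Subgroup (L ≃ₐ[k] L), N ≤ H → (N.subgroupOf H).Normal → Odd (Nat.card N) →
      ∀ n : ℕ, N.relIndex H = 2 ^ (n + 1) →
      rootNumber (W.baseChange L) =
        ∏ K ∈ halves H, rootNumber (W.baseChange (IntermediateField.fixedField K))) ∧
    -- 2
    ∀ (p : ℕ) [Fact p.Prime] (V : Type) [AddCommGroup V] [Module ℚ_[p] V]
      [FiniteDimensional ℚ_[p] V] (ρ : (L ≃ₐ[k] L) →* (V →ₗ[ℚ_[p]] V)),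
      SelmerModule W L p V ρ →
      (∀ H N : Subgroup (L ≃ₐ[k] L), N ≤ H → (N.subgroupOf H).Normal → Odd (Nat.card N) →
        ∀ n : ℕ, N.relIndex H = 2 ^ (n + 1) →
        pDefect (W.baseChange L) p =
          ∏ K ∈ halves H, pDefect (W.baseChange (IntermediateField.fixedField K)) p) ∧
      (Even (finrank k L) → ∀ P : Sylow 2 (L ≃ₐ[k] L),
        pDefect (W.baseChange L) p =
          ∏ K ∈ halves (P : Subgroup (L ≃ₐ[k] L)),
            pDefect (W.baseChange (IntermediateField.fixedField K)) p) ∧
      (∀ z : L ≃ₐ[k] L, z * z = 1 →
        z ∈ Subgroup.closure (Set.range fun g : L ≃ₐ[k] L => g ^ 2) →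
        pDefect (W.baseChange L) p =
          pDefect (W.baseChange (IntermediateField.fixedField (Subgroup.zpowers z))) p) := by
  intro k L _ _ _ _ _ _ W hW hs
  refine ⟨fun H N h1 h2 h3 n h4 => root_prod W hW hs H N h1 h2 h3 n h4, ?_⟩
  intro p _ V _ _ _ ρ hV
  refine ⟨fun H N h1 h2 h3 n h4 => pDefect_sub W hW hs hV H N h1 h2 h3 n h4, ?_,
    fun z h1 h2 => pDefect_invol W hW hs hV z h1 h2⟩
  intro he P
  obtain ⟨n, hn⟩ := sylow_halves he P
  have hb : ((⊥ : Subgroup (L ≃ₐ[k] L)).subgroupOf (P : Subgroup (L ≃ₐ[k] L))).Normal := by
    rw [Subgroup.bot_subgroupOf]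
    infer_instance
  exact pDefect_sub W hW hs hV P ⊥ bot_le hb (by rw [Subgroup.card_bot]; exact odd_one) n hn

end Pool.Agent.Results.MP_ddf76b_nt.SelmerParityFromQuadraticLayers
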