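import Mathlib
import Pool.Agent.X298.PA.LayMain

/-!
# The p-parity conjecture over all the intermediate fields of a Galois extension

Let `K` be a number field, `E : y² = x³ + A x + B` a semistable elliptic curve with `A, B ∈ 𝓞_K`, `S` the set of its bad places, `F/K` a
finite Galois extension with group `G`, `p` a prime number, `V = X_p(E/F) ⊗ ℚ_p` the `p^∞`-Selmer representation of `G`, so that
`rk_p(E/F^H) = dim V^H` for all subgroups `H`. Suppose that `E` satisfies the conjecture of Hasse and Weil over all the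
intermediate fields `F^H`. For a conjugacy class `C` of `G` and real `γ > π / 2`, `T > 0` consider

  `S_C(T) = ∑_{v ∉ S} ∑_{k ≥ 1} (α_v^k + β_v^k) m_C(v^k) e^{iγ k log q_v / T} / (k Γ(1 + k log q_v / T))`,

`m_C(v^k)` the proportion of the elements of `C` in the coset `Frob_v^k`, and for a subgroup `H`
`Δ_H(T) = Re ∑_C π_H(C) (S_C(2T) - S_C(T)) / log 2`, `π_H` the permutation character of `G/H`. It is shown:

* `Δ_H(T) = - M_H + O(1/T)`, where `M_H = [F^H : ℚ] + #{places of split multiplicative reduction of E/F^H}`, and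
  `w(E/F^H) = (-1)^(M_H + r₂(F^H))` is the root number over `F^H`: **all the root numbers `w(E/F^H)` are read off from the
  functions `S_C(T)`, one for each class of `G`, given by the points of `E` modulo the good places of `K`**;
* **the `p`-parity conjecture for `E` over `F^H` holds if and only if
  `cos (π (Δ_H(T) + dim V^H + r₂(F^H))) → 1`, and if and only if this is positive for arbitrarily large `T`**.

So the `p`-parity conjecture over all the intermediate fields is a relation between two objects: the `ℚ_p`-representation `V` and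
the finitely many functions `S_C(T)`. There is no hypothesis on zeros.

Proof: `M_H` is the order at `s = 0` of the incomplete `L`-function `L_S(E/F^H, s) = L_S(E ⊗ π_H, s)`.
-/

set_option autoImplicit false

open Filter Topology Complex
open IsDedekindDomain NumberField

namespace Pool.Agent.Results.MP_ddf76b_nt.SelmerRanksAllLayers

open Pool.Agent.X298.ST Pool.Agent.X298.EC Pool.Agent.X298.PA Pool.Agent.X298.PA.Lay

/-- **The `p`-parity conjecture over all the intermediate fields.** -/
theorem result {K F : Type} [Field K] [NumberField K] [Field F] [NumberField F] [Algebra K F] [IsGalois K F]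
    (S : Finset (HeightOneSpectrum (𝓞 K))) (P : Places (S : Set (HeightOneSpectrum (𝓞 K))) → Ideal (𝓞 F))
    (_hP : IsAbove P) (A B : 𝓞 K) (α β : Places (S : Set (HeightOneSpectrum (𝓞 K))) → ℂ) (hE : IsFrobenius A B α β)
    (l : (H : Subgroup (F ≃ₐ[K] F)) → Layer S H) (Λ : Subgroup (F ≃ₐ[K] F) → ℂ → ℂ)
    (hΛ : ∀ H, HasseWeil P α β (l H) (Λ H)) {p : ℕ} [Fact p.Prime] {V : Type} [AddCommGroup V] [Module ℚ_[p] V]
    (ρ : Representation ℚ_[p] (F ≃ₐ[K] F) V) (γ : ℝ) (hγ : Real.pi / 2 < γ) :
    (∀ (C : ConjClasses (F ≃ₐ[K] F)) (T : ℝ), 0 < T → Summable fun x => ‖pTerm P α β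
      (open Classical in fun g => if ConjClasses.mk g = C then 1 else 0) γ 0 T x‖) ∧
    ∀ H : Subgroup (F ≃ₐ[K] F),
      ((fun T : ℝ => delta P α β γ H T + MM (l H)) =O[atTop] (fun T : ℝ => 1 / T)) ∧
      rootNumber (l H) = (-1) ^ (MM (l H) + InfinitePlace.nrComplexPlaces (Mid H)) ∧
      ((-1) ^ selmerRank ρ H = rootNumber (l H) ↔
        Tendsto (fun T : ℝ => Real.cos (Real.pi * (delta P α β γ H T + (selmerRank ρ H +
          InfinitePlace.nrComplexPlaces (Mid H))))) atTop (𝓝 1)) ∧
      ((-1) ^ selmerRank ρ H = rootNumber (l H) ↔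
        ∃ᶠ T : ℝ in atTop, 0 < Real.cos (Real.pi * (delta P α β γ H T + (selmerRank ρ H +
          InfinitePlace.nrComplexPlaces (Mid H))))) := by
  refine ⟨fun C T hT => p_summable (pure hE) _ γ 0 hT, fun H => ?_⟩
  have hlaw := delta_law hE (hΛ H) hγ
  have hroot := root_eq (l H)
  refine ⟨by simpa using hlaw, hroot, ?_⟩
  generalize selmerRank ρ H = r
  set k : ℕ := InfinitePlace.nrComplexPlaces (Mid H) with hk
  have hlim : Tendsto (fun T : ℝ => Real.cos (Real.pi * (delta P α β γ H T + (r + k)))) atTop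
      (𝓝 ((-1) ^ r * rootNumber (l H))) := by
    have h1 := cos_lim hlaw ((r + k : ℕ) : ℤ)
    have e1 : ((-1 : ℝ) ^ (((MM (l H) : ℕ) : ℤ) + ((r + k : ℕ) : ℤ))) = (-1) ^ r * (rootNumber (l H) : ℝ) := by
      rw [hroot, ← Nat.cast_add, zpow_natCast]
      push_cast
      rw [← pow_add]
      congr 1
      ring
    rw [e1] at h1
    refine h1.congr fun T => ?_
    push_cast
    rfl
  have hpm : rootNumber (l H) = 1 ∨ rootNumber (l H) = -1 := by
    rw [hroot]
    exact neg_one_pow_eq_or ℤ _
  have hval : (-1) ^ r = rootNumber (l H) ∨ (-1) ^ r = -rootNumber (l H) := by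
    rcases neg_one_pow_eq_or ℤ r with h1 | h1 <;> rcases hpm with h2 | h2 <;> rw [h1, h2] <;> simp
  have hsq : (rootNumber (l H) : ℝ) * rootNumber (l H) = 1 := by
    rcases hpm with h2 | h2 <;> rw [h2] <;> norm_num
  have key1 : (-1) ^ r = rootNumber (l H) → ((-1 : ℝ) ^ r * rootNumber (l H)) = 1 := by
    intro h1
    have h2 : ((-1 : ℝ) ^ r) = rootNumber (l H) := by exact_mod_cast h1
    rw [h2, hsq]
  have key2 : ¬ ((-1) ^ r = rootNumber (l H)) → ((-1 : ℝ) ^ r * rootNumber (l H)) = -1 := by
    intro h1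
    have h3 := hval.resolve_left h1
    have h2 : ((-1 : ℝ) ^ r) = -rootNumber (l H) := by exact_mod_cast h3
    rw [h2, neg_mul, hsq]
  refine ⟨⟨fun h1 => ?_, fun h1 => ?_⟩, ⟨fun h1 => ?_, fun h1 => ?_⟩⟩
  · rw [key1 h1] at hlim
    exact hlim
  · by_contra h2
    rw [key2 h2] at hlim
    have := tendsto_nhds_unique hlim h1
    norm_num at this
  · rw [key1 h1] at hlim
    exact (hlim.eventually (eventually_gt_nhds (by norm_num : (0 : ℝ) < 1))).frequently
  · by_contra h2
    rw [key2 h2] at hlim
    have h3 := hlim.eventually (eventually_lt_nhds (by norm_num : (-1 : ℝ) < 0))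
    obtain ⟨T, h4, h5⟩ := (h1.and_eventually h3).exists
    linarith

end Pool.Agent.Results.MP_ddf76b_nt.SelmerRanksAllLayers
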